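import Pool.Agent.H46.MIC.One

/-!
# Several shapes: from coefficients to a Jacobian

`fulR_jac`: if the coefficients at nonconstant monomials of the differences of several polynomial
vectors span `ℝ ^ c` up to `2 ^ (-s)`, then the map `(z 1, …, z c) ↦ ∑ D i (z i)` has a Jacobian
minor which is not small at a point of the unit box.
-/

set_option autoImplicit false

namespace Pool.FRT

open Finset Real
open Pool.Agent.H49.Ent Pool.Agent.H32.Dense Pool.STK Pool.BFL Pool.MIC

/-- One column of a determinant, as a combination of cofactors. -/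
theorem det_updateCol_sum {c : ℕ} (M : Matrix (Fin c) (Fin c) ℝ) (t : Fin c) (v : Fin c → ℝ) :
    (M.updateCol t v).det = ∑ g, v g * M.cramer (Pi.single g 1) t := by
  have h1 : M.cramer v t = (M.updateCol t v).det := Matrix.cramer_apply M v t
  rw [← h1]
  have h2 : v = ∑ g, v g • (Pi.single g 1 : Fin c → ℝ) := by
    funext a
    simp [Finset.sum_apply, Pi.single_apply]
  conv_lhs => rw [h2]
  rw [map_sum, Finset.sum_apply]
  refine Finset.sum_congr rfl fun g _ => ?_
  rw [map_smul, Pi.smul_apply, smul_eq_mul]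

/-- From coefficients to derivatives, column by column. -/
theorem cols (k K c : ℕ) : ∃ c₁ : ℕ, ∀ (D : Fin c → Fin c → Pl k) (α : Fin c → (Fin k →₀ ℕ))
    (s : ℕ), (∀ i g, (D i g).totalDegree ≤ K) → (∀ i, α i ≠ 0) →
    1 / (2 : ℝ) ^ s < |(Matrix.of fun g i => MvPolynomial.coeff (α i) (D i g)).det| →
    ∃ (l : Fin c → Fin k) (z : Fin c → Fin k → ℝ), (∀ i a, |z i a| ≤ 1) ∧
      (1 / 2 : ℝ) ^ (s + c₁) ≤ |(Matrix.of fun g i =>
        MvPolynomial.eval (z i) (MvPolynomial.pderiv (l i) (D i g))).det| := by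
  classical
  obtain ⟨c₀, hc₀⟩ := lg_point k K
  refine ⟨c * (c₀ + 1), fun D α s hD hα hdet => ?_⟩
  have key : ∀ n : ℕ, n ≤ c → ∃ (l : Fin c → Fin k → Prop) (V : Fin c → Fin c → ℝ),
      (∀ i : Fin c, (i : ℕ) < n → ∃ (l : Fin k) (z : Fin k → ℝ), (∀ a, |z a| ≤ 1) ∧
        ∀ g, V i g = MvPolynomial.eval z (MvPolynomial.pderiv l (D i g))) ∧
      (∀ i : Fin c, n ≤ (i : ℕ) → ∀ g, V i g = MvPolynomial.coeff (α i) (D i g)) ∧
      1 / (2 : ℝ) ^ (s + n * (c₀ + 1)) < |(Matrix.of fun g i => V i g).det| := by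
    intro n
    induction n with
    | zero =>
      intro _
      refine ⟨fun _ _ => True, fun i g => MvPolynomial.coeff (α i) (D i g),
        fun i hi => absurd hi (Nat.not_lt_zero _), fun i _ g => rfl, ?_⟩
      rw [Nat.zero_mul, Nat.add_zero]
      exact hdet
    | succ n ih =>
      intro hn
      obtain ⟨l, V, h1, h2, h3⟩ := ih (by omega)
      obtain ⟨t, ht⟩ : ∃ t : Fin c, (t : ℕ) = n := ⟨⟨n, by omega⟩, rfl⟩
      obtain ⟨M, hM⟩ : ∃ M : Matrix (Fin c) (Fin c) ℝ, M = Matrix.of fun g i => V i g := ⟨_, rfl⟩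
      obtain ⟨co, hco⟩ : ∃ co : Fin c → ℝ, co = fun g => M.cramer (Pi.single g 1) t := ⟨_, rfl⟩
      obtain ⟨S, hS⟩ : ∃ S : Pl k, S = ∑ g, MvPolynomial.C (co g) * D t g := ⟨_, rfl⟩
      have e1 : MvPolynomial.coeff (α t) S = M.det := by
        have a1 := det_updateCol_sum M t (fun g => V t g)
        have a2 : M.updateCol t (fun g => V t g) = M := by
          ext g i
          rw [Matrix.updateCol_apply]
          split_ifs with h
          · rw [h, hM]
            rfl
          · rfl
        rw [a2] at a1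
        rw [a1, hS, MvPolynomial.coeff_sum]
        refine Finset.sum_congr rfl fun g _ => ?_
        rw [MvPolynomial.coeff_C_mul, h2 t (by omega) g, hco, mul_comm]
      have e2 : S.totalDegree ≤ K := by
        rw [hS]
        refine MvPolynomial.totalDegree_finsetSum_le fun g _ => ?_
        refine (MvPolynomial.totalDegree_mul _ _).trans ?_
        rw [MvPolynomial.totalDegree_C, Nat.zero_add]
        exact hD t g
      obtain ⟨l', z, hz, hz'⟩ := hc₀ S (s + n * (c₀ + 1)) e2 ⟨α t, hα t, by
        rw [e1, hM]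
        exact h3⟩
      obtain ⟨V', hV'⟩ : ∃ V' : Fin c → Fin c → ℝ, V' = fun i g => if i = t then
        MvPolynomial.eval z (MvPolynomial.pderiv l' (D t g)) else V i g := ⟨_, rfl⟩
      refine ⟨l, V', fun i hi => ?_, fun i hi g => ?_, ?_⟩
      · by_cases h : i = t
        · subst h
          exact ⟨l', z, hz, fun g => by rw [hV']; simp only [if_pos]⟩
        · have : (i : ℕ) < n := by
            have : (i : ℕ) ≠ n := fun hc => h (Fin.ext (hc.trans ht.symm))
            omega
          obtain ⟨a, b, d, e⟩ := h1 i this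
          exact ⟨a, b, d, fun g => by rw [hV']; simp only [if_neg h]; exact e g⟩
      · have h : i ≠ t := fun hc => by
          rw [hc, ht] at hi
          omega
        rw [hV']
        simp only [if_neg h]
        exact h2 i (by omega) g
      · have a1 := det_updateCol_sum M t
          (fun g => MvPolynomial.eval z (MvPolynomial.pderiv l' (D t g)))
        have a2 : M.updateCol t (fun g => MvPolynomial.eval z (MvPolynomial.pderiv l' (D t g))) =
            Matrix.of fun g i => V' i g := by
          ext g i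
          rw [Matrix.updateCol_apply, Matrix.of_apply, hV', hM]
          by_cases h : i = t
          · simp only [if_pos h]
          · simp only [if_neg h]
            rfl
        have a3 : MvPolynomial.eval z (MvPolynomial.pderiv l' S) =
            ∑ g, MvPolynomial.eval z (MvPolynomial.pderiv l' (D t g)) *
              M.cramer (Pi.single g 1) t := by
          rw [hS, map_sum, map_sum]
          refine Finset.sum_congr rfl fun g _ => ?_
          rw [MvPolynomial.pderiv_C_mul, map_mul, MvPolynomial.eval_C, hco, mul_comm]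
        rw [a2, ← a3] at a1
        rw [a1]
        refine lt_of_lt_of_le ?_ hz'
        have e3 : s + (n + 1) * (c₀ + 1) = s + n * (c₀ + 1) + c₀ + 1 := by ring
        rw [e3, one_div, one_div, inv_pow]
        refine (inv_lt_inv₀ (by positivity) (by positivity)).2 ?_
        exact pow_lt_pow_right₀ (by norm_num) (Nat.lt_succ_self _)
  obtain ⟨-, V, h1, -, h3⟩ := key c le_rfl
  choose l z hz hV using fun i : Fin c => h1 i i.2
  refine ⟨l, z, hz, ?_⟩
  have e : (Matrix.of fun g i => V i g) = Matrix.of fun g i =>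
      MvPolynomial.eval (z i) (MvPolynomial.pderiv (l i) (D i g)) := by
    ext g i
    exact hV i g
  rw [← e, one_div, inv_pow]
  rw [one_div] at h3
  exact h3.le

/-! ### One polynomial map in all the variables -/

/-- The index of the variable `l` of the block `i`. -/
def fp {c k : ℕ} (i : Fin c) (l : Fin k) : Fin (c * k) := finProdFinEquiv (i, l)

theorem fp_inj {c k : ℕ} (i : Fin c) : Function.Injective (fp (k := k) i) := by
  intro l l' h
  have := finProdFinEquiv.injective h
  exact (Prod.ext_iff.1 this).2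

/-- The sum of the vectors in separate variables. -/
noncomputable def sm {c k : ℕ} (Q : Fin c → Fin c → Pl k) (g : Fin c) :
    MvPolynomial (Fin (c * k)) ℝ := ∑ i, MvPolynomial.rename (fp i) (Q i g)

theorem sm_deg {c k K : ℕ} {Q : Fin c → Fin c → Pl k} (h : ∀ i g, (Q i g).totalDegree ≤ K)
    (g : Fin c) : (sm Q g).totalDegree ≤ K :=
  MvPolynomial.totalDegree_finsetSum_le fun i _ =>
    (MvPolynomial.totalDegree_rename_le _ _).trans (h i g)

theorem sm_coeff {c k b : ℕ} {Q : Fin c → Fin c → Pl k}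
    (h : ∀ i g α, |MvPolynomial.coeff α (Q i g)| ≤ 2 ^ b) (g : Fin c) (m : Fin (c * k) →₀ ℕ) :
    |MvPolynomial.coeff m (sm Q g)| ≤ 2 ^ (b + c) := by
  classical
  have h1 : ∀ i, |MvPolynomial.coeff m (MvPolynomial.rename (fp i) (Q i g))| ≤ 2 ^ b := by
    intro i
    by_cases hm : ∃ u : Fin k →₀ ℕ, u.mapDomain (fp i) = m
    · obtain ⟨u, rfl⟩ := hm
      rw [MvPolynomial.coeff_rename_mapDomain _ (fp_inj i)]
      exact h i g u
    · push Not at hm
      rw [MvPolynomial.coeff_rename_eq_zero _ _ _ fun u hu => absurd hu (hm u), abs_zero]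
      positivity
  unfold sm
  rw [MvPolynomial.coeff_sum]
  refine (Finset.abs_sum_le_sum_abs _ _).trans ((Finset.sum_le_sum fun i _ => h1 i).trans ?_)
  rw [Finset.sum_const, Finset.card_univ, Fintype.card_fin, nsmul_eq_mul, pow_add, mul_comm]
  refine mul_le_mul_of_nonneg_left ?_ (by positivity)
  exact_mod_cast Nat.lt_two_pow_self.le

theorem sm_eval {c k : ℕ} (Q : Fin c → Fin c → Pl k) (g : Fin c) (x : Fin (c * k) → ℝ) :
    MvPolynomial.eval x (sm Q g) = ∑ i, MvPolynomial.eval (fun l => x (fp i l)) (Q i g) := by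
  unfold sm
  rw [map_sum]
  refine Finset.sum_congr rfl fun i _ => ?_
  rw [MvPolynomial.eval_rename]
  rfl

theorem sm_pderiv {c k : ℕ} (Q : Fin c → Fin c → Pl k) (g : Fin c) (x : Fin (c * k) → ℝ)
    (i : Fin c) (l : Fin k) : MvPolynomial.eval x (MvPolynomial.pderiv (fp i l) (sm Q g)) =
      MvPolynomial.eval (fun l => x (fp i l)) (MvPolynomial.pderiv l (Q i g)) := by
  classical
  unfold sm
  rw [map_sum, map_sum, Finset.sum_eq_single i]
  · rw [MvPolynomial.pderiv_rename (fp_inj i), MvPolynomial.eval_rename]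
    rfl
  · intro i' _ hi
    have h1 : MvPolynomial.pderiv (fp i l) (MvPolynomial.rename (fp i') (Q i' g)) = 0 := by
      refine MvPolynomial.pderiv_eq_zero_of_notMem_vars fun hc => ?_
      have h2 := MvPolynomial.vars_rename (fp i') (Q i' g) hc
      obtain ⟨l', -, hl'⟩ := Finset.mem_image.1 h2
      have h3 := finProdFinEquiv.injective hl'
      exact hi (Prod.ext_iff.1 h3).1
    rw [h1, map_zero]
  · intro h
    exact absurd (Finset.mem_univ _) h

/-- **From coefficients to a Jacobian.** -/
theorem jac_of (k K c : ℕ) : ∃ c₁ : ℕ, ∀ (D : Fin c → Fin c → Pl k) (α : Fin c → (Fin k →₀ ℕ))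
    (s : ℕ), (∀ i g, (D i g).totalDegree ≤ K) → (∀ i, α i ≠ 0) →
    1 / (2 : ℝ) ^ s < |(Matrix.of fun g i => MvPolynomial.coeff (α i) (D i g)).det| →
    ∃ (I : Fin c → Fin (c * k)) (z : Fin (c * k) → ℝ), (∀ a, |z a| ≤ 1) ∧
      (1 / 2 : ℝ) ^ (s + c₁) ≤ |MvPolynomial.eval z (Pool.POLY.jac (sm D) I)| := by
  obtain ⟨c₁, h⟩ := cols k K c
  refine ⟨c₁, fun D α s hD hα hdet => ?_⟩
  obtain ⟨l, z, hz, hz'⟩ := h D α s hD hα hdet
  refine ⟨fun i => fp i (l i), fun a => z (finProdFinEquiv.symm a).1 (finProdFinEquiv.symm a).2,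
    fun a => hz _ _, ?_⟩
  rw [Pool.POLY.eval_jac]
  have e : (Matrix.of fun j i => MvPolynomial.eval
      (fun a => z (finProdFinEquiv.symm a).1 (finProdFinEquiv.symm a).2)
      (MvPolynomial.pderiv (fp i (l i)) (sm D j))) = Matrix.of fun g i =>
        MvPolynomial.eval (z i) (MvPolynomial.pderiv (l i) (D i g)) := by
    ext g i
    simp only [Matrix.of_apply]
    rw [sm_pderiv]
    congr 1
    have : (fun l => z (finProdFinEquiv.symm (fp i l)).1 (finProdFinEquiv.symm (fp i l)).2) =
        z i := by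
      funext l
      unfold fp
      rw [Equiv.symm_apply_apply]
    rw [this]
  rw [e]
  exact hz'

end Pool.FRT
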