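import Mathlib

/-!
# Minors, Cramer functionals and their agreement

`e : Fin r → Fin c` is a choice of rows, `g` one more row, `w : Fin r → Fin c → R` are `r` vectors.
`mn e w` is the minor of `w` on the rows `e`, and `ph e g w v` the minor of `w` and `v` on the rows
`e` and `g`, written by Cramer's rule.
-/

set_option autoImplicit false

namespace Pool.FRT

open Finset

section ring

variable {R : Type} [CommRing R] {c r : ℕ}

/-- The square matrix of the rows `e` of the vectors `w`. -/
def mt (e : Fin r → Fin c) (w : Fin r → Fin c → R) : Matrix (Fin r) (Fin r) R :=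
  Matrix.of fun a b => w b (e a)

/-- The minor on the rows `e`. -/
def mn (e : Fin r → Fin c) (w : Fin r → Fin c → R) : R := (mt e w).det

/-- The coordinates of Cramer's rule. -/
def cr (e : Fin r → Fin c) (w : Fin r → Fin c → R) (v : Fin c → R) : Fin r → R :=
  (mt e w).cramer (fun a => v (e a))

/-- The functional which kills the vectors `w`, on the rows `e` and `g`. -/
def ph (e : Fin r → Fin c) (g : Fin c) (w : Fin r → Fin c → R) (v : Fin c → R) : R :=
  mn e w * v g - ∑ j, cr e w v j * w j g

/-- The coefficients of the functional. -/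
def nc (e : Fin r → Fin c) (g : Fin c) (w : Fin r → Fin c → R) (i : Fin c) : R :=
  ph e g w (Pi.single i 1)

theorem cr_add (e : Fin r → Fin c) (w : Fin r → Fin c → R) (v v' : Fin c → R) :
    cr e w (v + v') = cr e w v + cr e w v' := by
  unfold cr
  rw [← map_add]
  rfl

theorem cr_smul (e : Fin r → Fin c) (w : Fin r → Fin c → R) (a : R) (v : Fin c → R) :
    cr e w (a • v) = a • cr e w v := by
  unfold cr
  rw [← map_smul]
  rfl

/-- Cramer's rule. -/
theorem cr_rule (e : Fin r → Fin c) (w : Fin r → Fin c → R) (v : Fin c → R) (a : Fin r) :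
    ∑ j, cr e w v j * w j (e a) = mn e w * v (e a) := by
  have h := congrFun (Matrix.mulVec_cramer (mt e w) (fun a => v (e a))) a
  rw [Pi.smul_apply, smul_eq_mul] at h
  unfold mn cr
  rw [← h, Matrix.mulVec, dotProduct]
  refine Finset.sum_congr rfl fun j _ => ?_
  rw [mul_comm]
  rfl

theorem cr_self (e : Fin r → Fin c) (w : Fin r → Fin c → R) (j : Fin r) :
    cr e w (w j) = Pi.single j (mn e w) := by
  unfold cr mn
  exact Matrix.cramer_row_self (mt e w) (fun a => w j (e a)) j (fun a => rfl)

/-- The functional is additive. -/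
theorem ph_add (e : Fin r → Fin c) (g : Fin c) (w : Fin r → Fin c → R) (v v' : Fin c → R) :
    ph e g w (v + v') = ph e g w v + ph e g w v' := by
  unfold ph
  rw [cr_add, Pi.add_apply]
  simp only [Pi.add_apply, add_mul, mul_add, Finset.sum_add_distrib]
  ring

theorem ph_smul (e : Fin r → Fin c) (g : Fin c) (w : Fin r → Fin c → R) (a : R)
    (v : Fin c → R) : ph e g w (a • v) = a * ph e g w v := by
  unfold ph
  rw [cr_smul, Pi.smul_apply, smul_eq_mul, mul_sub, Finset.mul_sum]
  congr 1
  · ring
  · refine Finset.sum_congr rfl fun j _ => ?_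
    rw [Pi.smul_apply, smul_eq_mul]
    ring

/-- The functional as a linear map. -/
def phl (e : Fin r → Fin c) (g : Fin c) (w : Fin r → Fin c → R) : (Fin c → R) →ₗ[R] R where
  toFun := ph e g w
  map_add' := ph_add e g w
  map_smul' a v := by rw [ph_smul, RingHom.id_apply, smul_eq_mul]

theorem ph_sub (e : Fin r → Fin c) (g : Fin c) (w : Fin r → Fin c → R) (v v' : Fin c → R) :
    ph e g w (v - v') = ph e g w v - ph e g w v' := (phl e g w).map_sub v v'

theorem ph_zero (e : Fin r → Fin c) (g : Fin c) (w : Fin r → Fin c → R) :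
    ph e g w 0 = 0 := (phl e g w).map_zero

/-- The functional in coordinates. -/
theorem ph_sum (e : Fin r → Fin c) (g : Fin c) (w : Fin r → Fin c → R) (v : Fin c → R) :
    ph e g w v = ∑ i, nc e g w i * v i := by
  have h1 : v = ∑ i, v i • (Pi.single i 1 : Fin c → R) := by
    funext j
    simp [Finset.sum_apply, Pi.single_apply]
  have h2 : ph e g w v = phl e g w v := rfl
  rw [h2]
  conv_lhs => rw [h1]
  rw [map_sum]
  refine Finset.sum_congr rfl fun i _ => ?_
  rw [map_smul, smul_eq_mul, mul_comm]
  rfl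

/-- On vectors whose rows `e` vanish. -/
theorem ph_off (e : Fin r → Fin c) (g : Fin c) (w : Fin r → Fin c → R) (v : Fin c → R)
    (hv : ∀ a, v (e a) = 0) : ph e g w v = mn e w * v g := by
  have h : cr e w v = 0 := by
    unfold cr
    have h1 : (fun a => v (e a)) = 0 := funext hv
    rw [h1, map_zero]
  unfold ph
  rw [h]
  simp

theorem nc_self (e : Fin r → Fin c) (g : Fin c) (w : Fin r → Fin c → R) (hg : ∀ a, e a ≠ g) :
    nc e g w g = mn e w := by
  unfold nc
  rw [ph_off]
  · simp
  · intro a
    rw [Pi.single_apply, if_neg (hg a)]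

theorem nc_off (e : Fin r → Fin c) (g : Fin c) (w : Fin r → Fin c → R) (i : Fin c)
    (hi : ∀ a, e a ≠ i) (hig : i ≠ g) : nc e g w i = 0 := by
  unfold nc
  rw [ph_off]
  · rw [Pi.single_apply, if_neg (Ne.symm hig), mul_zero]
  · intro a
    rw [Pi.single_apply, if_neg (hi a)]

/-- The functional kills the frame. -/
theorem ph_frame (e : Fin r → Fin c) (g : Fin c) (w : Fin r → Fin c → R) (j : Fin r) :
    ph e g w (w j) = 0 := by
  unfold ph
  rw [cr_self, Finset.sum_eq_single j]
  · rw [Pi.single_eq_same, sub_self]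
  · intro i _ hi
    rw [Pi.single_eq_of_ne hi, zero_mul]
  · intro h
    exact absurd (Finset.mem_univ _) h

/-- The rows `e` give nothing. -/
theorem ph_row (e : Fin r → Fin c) (w : Fin r → Fin c → R) (v : Fin c → R) (a : Fin r) :
    ph e (e a) w v = 0 := by
  unfold ph
  rw [cr_rule, sub_self]

/-- **Two frames on the same rows.** -/
theorem ph_two (e : Fin r → Fin c) (g : Fin c) (w w' : Fin r → Fin c → R) (v : Fin c → R) :
    mn e w * ph e g w' v - mn e w' * ph e g w v = ∑ j, cr e w v j * ph e g w' (w j) := by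
  have h1 : ph e g w' (mn e w • v - ∑ j, cr e w v j • w j) = mn e w' * ph e g w v := by
    rw [ph_off]
    · congr 1
      unfold ph
      rw [Pi.sub_apply, Pi.smul_apply, smul_eq_mul, Finset.sum_apply]
      rfl
    · intro a
      rw [Pi.sub_apply, Pi.smul_apply, smul_eq_mul, Finset.sum_apply, ← cr_rule, sub_eq_zero]
      rfl
  have h2 : ph e g w' (∑ j, cr e w v j • w j) = ∑ j, cr e w v j * ph e g w' (w j) := by
    have h3 : ph e g w' (∑ j, cr e w v j • w j) = phl e g w' (∑ j, cr e w v j • w j) := rfl
    rw [h3, map_sum]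
    refine Finset.sum_congr rfl fun j _ => ?_
    rw [map_smul, smul_eq_mul]
    rfl
  rw [ph_sub, ph_smul, h2] at h1
  rw [← h1]
  ring

/-- The coefficients for two frames. -/
theorem nc_two (e : Fin r → Fin c) (g : Fin c) (w w' : Fin r → Fin c → R) (i : Fin c) :
    mn e w * nc e g w' i - mn e w' * nc e g w i =
      ∑ j, cr e w (Pi.single i 1) j * ph e g w' (w j) := ph_two e g w w' _

/-- A ring homomorphism. -/
theorem mn_map {S : Type} [CommRing S] (f : R →+* S) (e : Fin r → Fin c)
    (w : Fin r → Fin c → R) : f (mn e w) = mn e (fun j i => f (w j i)) := by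
  unfold mn
  rw [RingHom.map_det]
  rfl

theorem cr_map {S : Type} [CommRing S] (f : R →+* S) (e : Fin r → Fin c)
    (w : Fin r → Fin c → R) (v : Fin c → R) (j : Fin r) :
    f (cr e w v j) = cr e (fun j i => f (w j i)) (fun i => f (v i)) j := by
  unfold cr
  rw [Matrix.cramer_apply, Matrix.cramer_apply, RingHom.map_det]
  congr 1
  ext a b
  rw [RingHom.mapMatrix_apply, Matrix.map_apply, Matrix.updateCol_apply, Matrix.updateCol_apply]
  split_ifs <;> rfl

theorem ph_map {S : Type} [CommRing S] (f : R →+* S) (e : Fin r → Fin c) (g : Fin c)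
    (w : Fin r → Fin c → R) (v : Fin c → R) :
    f (ph e g w v) = ph e g (fun j i => f (w j i)) (fun i => f (v i)) := by
  unfold ph
  rw [map_sub, map_mul, mn_map, map_sum]
  congr 1
  refine Finset.sum_congr rfl fun j _ => ?_
  rw [map_mul, cr_map]

theorem nc_map {S : Type} [CommRing S] (f : R →+* S) (e : Fin r → Fin c) (g : Fin c)
    (w : Fin r → Fin c → R) (i : Fin c) :
    f (nc e g w i) = nc e g (fun j i => f (w j i)) i := by
  unfold nc
  rw [ph_map]
  congr 1
  funext a
  rw [Pi.single_apply, Pi.single_apply]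
  split_ifs
  · exact map_one f
  · exact map_zero f

end ring

/-- **The functional is the minor with one more row and one more column.** -/
theorem ph_det {R : Type} [CommRing R] [IsDomain R] {c r : ℕ} (e : Fin r → Fin c) (g : Fin c)
    (w : Fin r → Fin c → R) (v : Fin c → R) (h0 : mn e w ≠ 0) :
    mn (Fin.snoc e g : Fin (r + 1) → Fin c) (Fin.snoc w v : Fin (r + 1) → Fin c → R) =
      ph e g w v := by
  obtain ⟨E, hE⟩ : ∃ E : Fin (r + 1) → Fin c, E = Fin.snoc e g := ⟨_, rfl⟩
  have hEl : E (Fin.last r) = g := by rw [hE, Fin.snoc_last]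
  have hEc : ∀ a : Fin r, E a.castSucc = e a := fun a => by rw [hE, Fin.snoc_castSucc]
  obtain ⟨M, hM⟩ : ∃ M : Matrix (Fin (r + 1)) (Fin (r + 1)) R,
      M = mt E (Fin.snoc w v : Fin (r + 1) → Fin c → R) := ⟨_, rfl⟩
  have hMc : ∀ (u : Fin c → R), M.updateCol (Fin.last r) (fun a => u (E a)) =
      mt E (Fin.snoc w u : Fin (r + 1) → Fin c → R) := by
    intro u
    ext a b
    rw [Matrix.updateCol_apply, hM]
    unfold mt
    rw [Matrix.of_apply, Matrix.of_apply]
    refine Fin.lastCases ?_ (fun b => ?_) b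
    · rw [if_pos rfl, Fin.snoc_last]
    · rw [if_neg (Fin.castSucc_lt_last b).ne, Fin.snoc_castSucc, Fin.snoc_castSucc]
  have hL : ∀ u : Fin c → R, mn E (Fin.snoc w u : Fin (r + 1) → Fin c → R) =
      M.cramer (fun a => u (E a)) (Fin.last r) := by
    intro u
    rw [Matrix.cramer_apply, hMc]
    rfl
  -- the frame vectors give zero
  have h1 : ∀ j : Fin r, M.cramer (fun a => w j (E a)) (Fin.last r) = 0 := by
    intro j
    rw [← hL]
    unfold mn
    refine Matrix.det_zero_of_column_eq (Fin.castSucc_lt_last j).ne fun a => ?_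
    unfold mt
    rw [Matrix.of_apply, Matrix.of_apply, Fin.snoc_castSucc, Fin.snoc_last]
  obtain ⟨u, hu⟩ : ∃ u : Fin c → R, u = mn e w • v - ∑ j, cr e w v j • w j := ⟨_, rfl⟩
  have hu1 : ∀ a, u (e a) = 0 := by
    intro a
    rw [hu, Pi.sub_apply, Pi.smul_apply, smul_eq_mul, Finset.sum_apply, ← cr_rule, sub_eq_zero]
    rfl
  have hu2 : u g = ph e g w v := by
    rw [hu]
    unfold ph
    rw [Pi.sub_apply, Pi.smul_apply, smul_eq_mul, Finset.sum_apply]
    rfl
  have h2 : M.cramer (fun a => u (E a)) (Fin.last r) =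
      mn e w * M.cramer (fun a => v (E a)) (Fin.last r) := by
    have h3 : (fun a => u (E a)) = mn e w • (fun a => v (E a)) -
        ∑ j, cr e w v j • (fun a => w j (E a)) := by
      funext a
      rw [hu, Pi.sub_apply, Pi.sub_apply, Finset.sum_apply, Finset.sum_apply]
      rfl
    rw [h3, map_sub, map_smul, map_sum, Pi.sub_apply, Pi.smul_apply, Finset.sum_apply,
      smul_eq_mul, Finset.sum_eq_zero, sub_zero]
    intro j _
    rw [map_smul, Pi.smul_apply, h1, smul_zero]
  have h4 : M.cramer (fun a => u (E a)) (Fin.last r) = u g * mn e w := by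
    rw [← hL]
    unfold mn
    rw [Matrix.det_succ_column _ (Fin.last r), Finset.sum_eq_single (Fin.last r)]
    · have h5 : (mt E (Fin.snoc w u : Fin (r + 1) → Fin c → R)) (Fin.last r) (Fin.last r) =
          u g := by
        unfold mt
        rw [Matrix.of_apply, Fin.snoc_last, hEl]
      have h6 : (mt E (Fin.snoc w u : Fin (r + 1) → Fin c → R)).submatrix
          (Fin.last r).succAbove (Fin.last r).succAbove = mt e w := by
        ext a b
        rw [Matrix.submatrix_apply, Fin.succAbove_last]
        unfold mt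
        rw [Matrix.of_apply, Matrix.of_apply, Fin.snoc_castSucc, hEc]
      rw [h5, h6, ← two_mul, pow_mul, neg_one_sq, one_pow, one_mul]
    · intro a _ ha
      obtain ⟨b, rfl⟩ := Fin.exists_castSucc_eq.2 ha
      have h5 : (mt E (Fin.snoc w u : Fin (r + 1) → Fin c → R)) b.castSucc (Fin.last r) = 0 := by
        unfold mt
        rw [Matrix.of_apply, Fin.snoc_last, hEc, hu1]
      rw [h5, mul_zero, zero_mul]
    · intro h
      exact absurd (Finset.mem_univ _) h
  have h7 : mn e w * M.cramer (fun a => v (E a)) (Fin.last r) = mn e w * ph e g w v := by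
    rw [← h2, h4, hu2, mul_comm]
  have h8 := mul_left_cancel₀ h0 h7
  rw [← hE, hL, h8]

end Pool.FRT
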