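import Pool.Agent.H22.FRT.Cra
import Pool.Agent.H73.REM.Meas

/-!
# Normal vectors of a family of polynomial vectors

`mul_norm`: the sup norm of a product of polynomials. `Gd`: the row sets with a large minor.
`frame`: for two families with the same row sets there is a frame in the smaller one whose
functional is small on the larger one. `Nv`: normal vectors, `Pal`: parallel normal vectors.
-/

set_option autoImplicit false

namespace Pool.FRT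

open Finset Polynomial

/-- **The sup norm of a product.** -/
theorem mul_norm (d : ℕ) : ∃ C : ℝ, 1 ≤ C ∧ ∀ (p q : ℝ[X]), p.natDegree ≤ d →
    q.natDegree ≤ d → ∀ (δ ε y : ℝ), 0 < δ → y ∈ Set.Icc (0 : ℝ) 1 → δ ≤ |p.eval y| →
    (∀ t ∈ Set.Icc (0 : ℝ) 1, |p.eval t * q.eval t| ≤ ε) →
    ∀ t ∈ Set.Icc (0 : ℝ) 1, |q.eval t| ≤ C * (ε / δ) := by
  obtain ⟨D, hD⟩ : ∃ D : ℕ, D = d + 1 := ⟨_, rfl⟩
  obtain ⟨A, hA⟩ : ∃ A : ℝ, A = (D + 1) * ((2 * D + 1) * (1 - 0)) ^ D := ⟨_, rfl⟩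
  have hA0 : 0 < A := by rw [hA]; positivity
  obtain ⟨κ, hκ⟩ : ∃ κ : ℝ, κ = (1 / 4) ^ D / A := ⟨_, rfl⟩
  have hκ0 : 0 < κ := by rw [hκ]; positivity
  refine ⟨max 1 ((D + 1) * ((2 * D + 1) * 1 / (1 / 2)) ^ D / κ), le_max_left _ _, ?_⟩
  intro p q hp hq δ ε y hδ hy hpy hpq t ht
  have hp0 : p.eval y ≠ 0 := by
    intro h
    rw [h, abs_zero] at hpy
    linarith
  have h1 := Pool.REM.small_meas p D (by omega) (hp.trans (by omega)) hκ0.le y hy hp0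
  obtain ⟨E, hE⟩ : ∃ E : Set ℝ, E = {x ∈ Set.Icc (0 : ℝ) 1 | |p.eval x| ≤ κ * |p.eval y|} :=
    ⟨_, rfl⟩
  rw [← hE, ← hA] at h1
  have h2 : A * κ = (1 / 4) ^ D := by
    rw [hκ]
    field_simp
  rw [h2] at h1
  have h3 : (MeasureTheory.volume E).toReal ≤ 1 / 4 :=
    le_of_pow_le_pow_left₀ (by omega) (by norm_num) h1
  obtain ⟨E', hE'⟩ : ∃ E' : Set ℝ, E' = Set.Icc (0 : ℝ) 1 \ E := ⟨_, rfl⟩
  have hEs : E ⊆ Set.Icc (0 : ℝ) 1 := by
    rw [hE]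
    exact fun x hx => hx.1
  have hEm : MeasurableSet E := by
    rw [hE]
    refine (measurableSet_Icc).inter ?_
    exact (isClosed_le (continuous_abs.comp p.continuous) continuous_const).measurableSet
  have hfin : MeasureTheory.volume E ≠ ⊤ := by
    refine ne_top_of_le_ne_top ?_ (MeasureTheory.measure_mono hEs)
    rw [Real.volume_Icc]
    exact ENNReal.ofReal_ne_top
  have h4 : (1 : ℝ) / 2 ≤ (MeasureTheory.volume E').toReal := by
    rw [hE', MeasureTheory.measure_sdiff hEs hEm.nullMeasurableSet hfin, Real.volume_Icc,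
      ENNReal.toReal_sub_of_le ?_ ENNReal.ofReal_ne_top, ENNReal.toReal_ofReal (by norm_num)]
    · linarith
    · rw [← Real.volume_Icc]
      exact MeasureTheory.measure_mono hEs
  have h5 : E' ⊆ Set.Icc (0 : ℝ) 1 := by
    rw [hE']
    exact Set.sdiff_subset
  have h0ε : 0 ≤ ε := (abs_nonneg _).trans (hpq t ht)
  have h6 : ∀ x ∈ E', |q.eval x| ≤ ε / (κ * δ) := by
    intro x hx
    have hx1 := h5 hx
    have hx2 : κ * |p.eval y| < |p.eval x| := by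
      by_contra hc
      rw [hE'] at hx
      refine hx.2 ?_
      rw [hE]
      exact ⟨hx1, not_lt.1 hc⟩
    have hx3 : κ * δ ≤ |p.eval x| := (mul_le_mul_of_nonneg_left hpy hκ0.le).trans hx2.le
    rw [le_div_iff₀ (by positivity)]
    have := hpq x hx1
    rw [abs_mul] at this
    calc |q.eval x| * (κ * δ) ≤ |q.eval x| * |p.eval x| :=
          mul_le_mul_of_nonneg_left hx3 (abs_nonneg _)
      _ ≤ ε := by rw [mul_comm]; exact this
  have h7 := Pool.REM.remez q D (hq.trans (by omega)) h5 (by linarith) h6 t (L := 1) (by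
    intro x hx
    have := h5 hx
    rw [abs_le]
    constructor <;> linarith [ht.1, ht.2, this.1, this.2])
  refine h7.trans ?_
  have h8 : (D + 1 : ℝ) * ((2 * D + 1) * 1 / (MeasureTheory.volume E').toReal) ^ D ≤
      (D + 1) * ((2 * D + 1) * 1 / (1 / 2)) ^ D := by
    refine mul_le_mul_of_nonneg_left ?_ (by positivity)
    refine pow_le_pow_left₀ (by positivity) ?_ _
    exact div_le_div_of_nonneg_left (by positivity) (by norm_num) h4
  calc (D + 1 : ℝ) * ((2 * D + 1) * 1 / (MeasureTheory.volume E').toReal) ^ D * (ε / (κ * δ)) ≤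
      (D + 1) * ((2 * D + 1) * 1 / (1 / 2)) ^ D * (ε / (κ * δ)) :=
        mul_le_mul_of_nonneg_right h8 (by positivity)
    _ = (D + 1) * ((2 * D + 1) * 1 / (1 / 2)) ^ D / κ * (ε / δ) := by
        field_simp
    _ ≤ _ := mul_le_mul_of_nonneg_right (le_max_right _ _) (by positivity)

/-! ### Row sets with a large minor -/

/-- Choices of rows. -/
abbrev Ix (c : ℕ) : Type := (r : Fin (c + 1)) × (Fin r → Fin c)

open Classical in
/-- The row sets with a minor larger than `δ r`. -/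
noncomputable def Gd {c : ℕ} (δ : ℕ → ℝ) (W : Set (Fin c → ℝ[X])) : Finset (Ix c) :=
  univ.filter fun p => ∃ w : Fin p.1 → Fin c → ℝ[X], (∀ j, w j ∈ W) ∧
    ∃ t ∈ Set.Icc (0 : ℝ) 1, δ p.1 < |(mn p.2 w).eval t|

theorem mem_Gd {c : ℕ} {δ : ℕ → ℝ} {W : Set (Fin c → ℝ[X])} {p : Ix c} : p ∈ Gd δ W ↔
    ∃ w : Fin p.1 → Fin c → ℝ[X], (∀ j, w j ∈ W) ∧
      ∃ t ∈ Set.Icc (0 : ℝ) 1, δ p.1 < |(mn p.2 w).eval t| := by
  classical
  unfold Gd
  rw [mem_filter]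
  exact ⟨fun h => h.2, fun h => ⟨mem_univ _, h⟩⟩

theorem Gd_mono {c : ℕ} (δ : ℕ → ℝ) {W W' : Set (Fin c → ℝ[X])} (h : W ⊆ W') :
    Gd δ W ⊆ Gd δ W' := by
  intro p hp
  rw [mem_Gd] at hp ⊢
  obtain ⟨w, h1, h2⟩ := hp
  exact ⟨w, fun j => h (h1 j), h2⟩

theorem Gd_card {c : ℕ} (δ : ℕ → ℝ) (W : Set (Fin c → ℝ[X])) :
    (Gd δ W).card ≤ Fintype.card (Ix c) := card_le_univ _

theorem Gd_eq {c : ℕ} {δ : ℕ → ℝ} {W W' : Set (Fin c → ℝ[X])} (h : W ⊆ W')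
    (hc : (Gd δ W').card ≤ (Gd δ W).card) : Gd δ W = Gd δ W' :=
  eq_of_subset_of_card_le (Gd_mono δ h) hc

theorem zero_mem_Gd {c : ℕ} {δ : ℕ → ℝ} (W : Set (Fin c → ℝ[X])) (h : δ 0 < 1) :
    (⟨0, Fin.elim0⟩ : Ix c) ∈ Gd δ W := by
  rw [mem_Gd]
  refine ⟨fun j => j.elim0, fun j => j.elim0, 0, ⟨le_rfl, zero_le_one⟩, ?_⟩
  unfold mn
  have h1 : (mt (Fin.elim0 : Fin 0 → Fin c) (fun j => j.elim0 : Fin 0 → Fin c → ℝ[X])).det = 1 :=
    Matrix.det_isEmpty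
  have h2 : ((mt (Fin.elim0 : Fin 0 → Fin c)
    (fun j => j.elim0 : Fin 0 → Fin c → ℝ[X])).det).eval 0 = 1 := by rw [h1, eval_one]
  calc δ ((0 : Fin (c + 1)) : ℕ) = δ 0 := rfl
    _ < 1 := h
    _ = |((mt (Fin.elim0 : Fin 0 → Fin c)
      (fun j => j.elim0 : Fin 0 → Fin c → ℝ[X])).det).eval 0| := by rw [h2, abs_one]

/-- A choice of a maximal row set and of one more row, a function of the set of row sets. -/
theorem sel (c : ℕ) (hc : 0 < c) : ∃ S : Finset (Ix c) → Ix c × Fin c, ∀ G : Finset (Ix c),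
    G.Nonempty → (∀ p ∈ G, (p.1 : ℕ) < c) → (S G).1 ∈ G ∧ (∀ p ∈ G, (p.1 : ℕ) ≤ (S G).1.1) ∧
      ∀ a, (S G).1.2 a ≠ (S G).2 := by
  classical
  have h : ∀ G : Finset (Ix c), ∃ x : Ix c × Fin c, G.Nonempty → (∀ p ∈ G, (p.1 : ℕ) < c) →
      x.1 ∈ G ∧ (∀ p ∈ G, (p.1 : ℕ) ≤ x.1.1) ∧ ∀ a, x.1.2 a ≠ x.2 := by
    intro G
    by_cases hG : G.Nonempty
    · obtain ⟨p, hp, hmax⟩ := exists_max_image G (fun p => (p.1 : ℕ)) hG
      by_cases hlt : (p.1 : ℕ) < c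
      · have h1 : ¬ Function.Surjective p.2 := by
          intro hs
          have := Fintype.card_le_of_surjective _ hs
          rw [Fintype.card_fin, Fintype.card_fin] at this
          omega
        unfold Function.Surjective at h1
        push Not at h1
        obtain ⟨g, hg⟩ := h1
        exact ⟨(p, g), fun _ _ => ⟨hp, hmax, hg⟩⟩
      · exact ⟨(p, ⟨0, hc⟩), fun _ h2 => absurd (h2 p hp) hlt⟩
    · exact ⟨(⟨0, Fin.elim0⟩, ⟨0, hc⟩), fun h2 => absurd h2 hG⟩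
  choose S hS using h
  exact ⟨S, hS⟩

/-- **The frame.** -/
theorem frame {c : ℕ} {δ : ℕ → ℝ} (hδ : ∀ r, 0 < δ r) {W W' : Set (Fin c → ℝ[X])}
    (hW : W' ⊆ W) (hG : Gd δ W' = Gd δ W) {p : Ix c} (g : Fin c) (hp : p ∈ Gd δ W)
    (hmax : ∀ p' ∈ Gd δ W, (p'.1 : ℕ) ≤ p.1) (hpc : (p.1 : ℕ) < c) :
    ∃ w : Fin p.1 → Fin c → ℝ[X], (∀ j, w j ∈ W') ∧
      (∃ t ∈ Set.Icc (0 : ℝ) 1, δ p.1 < |(mn p.2 w).eval t|) ∧
      ∀ v ∈ W, ∀ t ∈ Set.Icc (0 : ℝ) 1, |(ph p.2 g w v).eval t| ≤ δ (p.1 + 1) := by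
  rw [← hG, mem_Gd] at hp
  obtain ⟨w, h1, h2⟩ := hp
  refine ⟨w, h1, h2, ?_⟩
  intro v hv t ht
  by_contra hc
  push Not at hc
  obtain ⟨t₀, ht₀, ht₀'⟩ := h2
  have hne : mn p.2 w ≠ 0 := by
    intro h
    rw [h, eval_zero, abs_zero] at ht₀'
    exact absurd ht₀' (not_lt.2 (hδ _).le)
  rw [← ph_det p.2 g w v hne] at hc
  have h3 : (⟨⟨p.1 + 1, by omega⟩, Fin.snoc p.2 g⟩ : Ix c) ∈ Gd δ W := by
    rw [mem_Gd]
    refine ⟨Fin.snoc w v, ?_, t, ht, hc⟩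
    intro j
    refine Fin.lastCases ?_ (fun j => ?_) j
    · rw [Fin.snoc_last]
      exact hv
    · rw [Fin.snoc_castSucc]
      exact hW (h1 j)
  have h4 := hmax _ h3
  simp only at h4
  omega

end Pool.FRT
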