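import Pool.Agent.H30.CH.Push
import Pool.Agent.H46.MIC.Ev

/-!
# Chains of resamplings

`dmv`: starting from a sample of the law `q`, resample alternately given the key `K i` and given
the key `K0`. All samples have the law `q`, and the values `Y` of the samples after the odd moves
and `B` of the samples after the even moves are jointly as full as they are given the keys.
-/

set_option autoImplicit false

namespace Pool.FRT

open Finset Real
open Pool.Agent.H49.Ent Pool.Agent.H32.Dense Pool.STK Pool.BFL Pool.CH30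

/-- One resampling. -/
theorem mv {Ω W : Type} [Fintype Ω] [Fintype W] {Q : Ω → ℝ} {q : W → ℝ} (hQ : IsLaw Q)
    (hq : IsLaw q) {last : Ω → W} (hl : Push Q q last) {T : Type} (K : W → T) :
    IsLaw (glue Q q (fun ω => K (last ω)) K) ∧
    Push (glue Q q (fun ω => K (last ω)) K) Q Prod.fst ∧
    Push (glue Q q (fun ω => K (last ω)) K) q Prod.snd ∧
    (∀ w, 0 < glue Q q (fun ω => K (last ω)) K w → K (last w.1) = K w.2) ∧
    ∀ {S U : Type} (X : W → S) (A : Ω → U), Det Q A (fun ω => K (last ω)) →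
      CH (glue Q q (fun ω => K (last ω)) K) (fun w => X w.2) (fun w => A w.1) = CH q X K := by
  have hlaw : ∀ z, law Q (fun ω => K (last ω)) z = law q K z := fun z => hl.law K z
  have h1 : Push (glue Q q (fun ω => K (last ω)) K) Q Prod.fst := push_fst hQ.nonneg hlaw
  have h2 : Push (glue Q q (fun ω => K (last ω)) K) q Prod.snd := push_snd hq.nonneg hlaw
  have h0 : ∀ w, 0 ≤ glue Q q (fun ω => K (last ω)) K w := glue_nonneg hQ.nonneg hq.nonneg
  refine ⟨⟨h0, h1.sum.trans hQ.sum_one⟩, h1, h2, fun w hw => glue_eq hw hQ.nonneg hq.nonneg, ?_⟩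
  intro S U X A hA
  have e1 := H_glue_pair hQ.nonneg hq.nonneg hlaw (X := A) (Y := fun w => (X w, K w)) hA
    (fun w w' _ _ h => (Prod.ext_iff.1 h).2)
  have e2 : H (glue Q q (fun ω => K (last ω)) K) (fun w => (A w.1, (X w.2, K w.2))) =
      H (glue Q q (fun ω => K (last ω)) K) (fun w => (X w.2, A w.1)) := by
    refine H_congr h0 ?_ ?_
    · intro w w' hw hw' h
      simp only [Prod.mk.injEq] at h ⊢
      refine ⟨h.2, h.1, ?_⟩
      have a1 := glue_eq hw hQ.nonneg hq.nonneg
      have a2 := glue_eq hw' hQ.nonneg hq.nonneg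
      have a3 := hA w.1 w'.1 (h1.pos h0 hw) (h1.pos h0 hw') h.2
      rw [← a1, ← a2]
      exact a3
    · intro w w' _ _ h
      simp only [Prod.mk.injEq] at h ⊢
      exact ⟨h.2.1, h.1⟩
  have e3 : H (glue Q q (fun ω => K (last ω)) K) (fun w => A w.1) = H Q A := h1.H A
  have e4 : H Q (fun ω => K (last ω)) = H q K := hl.H K
  unfold CH
  rw [← e2, e1, e3, e4]
  ring

/-- **Double moves.** -/
theorem dmv {W : Type} [Fintype W] {q : W → ℝ} (hq : IsLaw q) {T : Type} (K : ℕ → W → T)
    (K0 : W → T) {S U : Type} (Y : W → S) (B : W → U) {lY lB : ℝ} (hY : ∀ i, lY ≤ CH q Y (K i))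
    (hB : lB ≤ CH q B K0) (n : ℕ) : ∃ (Ω' : Type) (_ : Fintype Ω') (Q : Ω' → ℝ)
      (w : ℕ → Ω' → W) (v : ℕ → Ω' → W), IsLaw Q ∧ Push Q q (w n) ∧
      (∀ ω, 0 < Q ω → ∀ i ≤ n, 0 < q (w i ω)) ∧
      (∀ ω, 0 < Q ω → ∀ i < n, 0 < q (v i ω) ∧ K i (w i ω) = K i (v i ω) ∧
        K0 (v i ω) = K0 (w (i + 1) ω)) ∧
      n * (lY + lB) ≤ CH Q (fun ω (i : Fin n) => (Y (v i ω), B (w (i + 1) ω))) (w 0) := by
  induction n with
  | zero =>
    refine ⟨W, inferInstance, q, fun _ ω => ω, fun _ ω => ω, hq, Push.id q, fun ω h _ _ => h,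
      fun _ _ i hi => absurd hi (Nat.not_lt_zero i), ?_⟩
    rw [Nat.cast_zero, zero_mul]
    exact CH_nonneg hq.nonneg _ _
  | succ n ih =>
    obtain ⟨Ω', _, Q, w, v, h1, h2, h3, h4, h5⟩ := ih
    obtain ⟨a1, a2, a3, a4, a5⟩ := mv h1 hq h2 (K n)
    obtain ⟨Q₁, hQ₁⟩ : ∃ Q₁, Q₁ = glue Q q (fun ω => K n (w n ω)) (K n) := ⟨_, rfl⟩
    rw [← hQ₁] at a1 a2 a3 a4 a5
    obtain ⟨b1, b2, b3, b4, b5⟩ := mv a1 hq a3 K0
    obtain ⟨Q₂, hQ₂⟩ : ∃ Q₂, Q₂ = glue Q₁ q (fun ω : Ω' × W => K0 ω.2) K0 := ⟨_, rfl⟩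
    have b1' : IsLaw Q₂ := by rw [hQ₂]; exact b1
    have b2' : Push Q₂ Q₁ Prod.fst := by rw [hQ₂]; exact b2
    have b3' : Push Q₂ q Prod.snd := by rw [hQ₂]; exact b3
    have b4' : ∀ x, 0 < Q₂ x → K0 x.1.2 = K0 x.2 := by rw [hQ₂]; exact b4
    have b5' : CH Q₂ (fun x => B x.2) (fun x => x.1) = CH q B K0 := by
      rw [hQ₂]
      exact b5 B (fun ω => ω) (fun _ _ _ _ h => congrArg (fun y : Ω' × W => K0 y.2) h)
    have a5' : CH Q₁ (fun x => Y x.2) (fun x => x.1) = CH q Y (K n) :=
      a5 Y (fun ω => ω) (fun _ _ _ _ h => congrArg (fun y : Ω' => K n (w n y)) h)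
    have pos1 : ∀ x, 0 < Q₂ x → 0 < Q₁ x.1 := fun x hx => b2'.pos b1'.nonneg hx
    have pos2 : ∀ x, 0 < Q₂ x → 0 < Q x.1.1 := fun x hx => a2.pos a1.nonneg (pos1 x hx)
    obtain ⟨w', hw'⟩ : ∃ w' : ℕ → (Ω' × W) × W → W,
        w' = fun i x => if i ≤ n then w i x.1.1 else x.2 := ⟨_, rfl⟩
    obtain ⟨v', hv'⟩ : ∃ v' : ℕ → (Ω' × W) × W → W,
        v' = fun i x => if i < n then v i x.1.1 else x.1.2 := ⟨_, rfl⟩
    have w1 : ∀ i x, i ≤ n → w' i x = w i x.1.1 := fun i x hi => by rw [hw']; exact if_pos hi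
    have w2 : ∀ x, w' (n + 1) x = x.2 := fun x => by rw [hw']; exact if_neg (by omega)
    have v1 : ∀ i x, i < n → v' i x = v i x.1.1 := fun i x hi => by rw [hv']; exact if_pos hi
    have v2 : ∀ x, v' n x = x.1.2 := fun x => by rw [hv']; exact if_neg (lt_irrefl n)
    refine ⟨(Ω' × W) × W, inferInstance, Q₂, w', v', b1', ?_, ?_, ?_, ?_⟩
    · have e : w' (n + 1) = Prod.snd := by
        funext x
        exact w2 x
      rw [e]
      exact b3'
    · intro x hx i hi
      rcases Nat.lt_or_ge n i with h | h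
      · have : i = n + 1 := by omega
        rw [this, w2]
        exact b3'.pos b1'.nonneg hx
      · rw [w1 i x h]
        exact h3 _ (pos2 x hx) i h
    · intro x hx i hi
      rcases Nat.lt_or_ge i n with h | h
      · rw [v1 i x h, w1 i x h.le, w1 (i + 1) x h]
        exact h4 _ (pos2 x hx) i h
      · have : i = n := by omega
        subst this
        rw [v2, w1 i x le_rfl, w2]
        exact ⟨a3.pos a1.nonneg (pos1 x hx), a4 _ (pos1 x hx), b4' x hx⟩
    · -- the entropy
      obtain ⟨t, ht⟩ : ∃ t : (Ω' × W) × W → Fin n → S × U,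
          t = fun x (i : Fin n) => (Y (v i x.1.1), B (w (i + 1) x.1.1)) := ⟨_, rfl⟩
      have c1 : CH Q₂ (fun x => ((Y x.1.2, B x.2), t x)) (fun x => w 0 x.1.1) ≤
          CH Q₂ (fun x (i : Fin (n + 1)) => (Y (v' i x), B (w' (i + 1) x))) (w' 0) := by
        have c0 : CH Q₂ (fun x (i : Fin (n + 1)) => (Y (v' i x), B (w' (i + 1) x))) (w' 0) =
            CH Q₂ (fun x (i : Fin (n + 1)) => (Y (v' i x), B (w' (i + 1) x)))
              (fun x => w 0 x.1.1) := by
          have e0 : w' 0 = fun x => w 0 x.1.1 := by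
            funext x
            exact w1 0 x (Nat.zero_le n)
          rw [e0]
        rw [c0]
        refine CH_mono_left b1'.nonneg ?_
        intro x x' _ _ h
        have h' := (Prod.ext_iff.1 h).1
        simp only at h'
        refine Prod.ext ?_ ?_
        · have h6 := congrFun h' (Fin.last n)
          simp only [Fin.val_last, v2, w2] at h6
          exact h6
        · rw [ht]
          funext i
          have h6 := congrFun h' i.castSucc
          simp only [Fin.val_castSucc, v1 _ _ i.2, w1 _ _ (Nat.succ_le_of_lt i.2)] at h6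
          exact h6
      have c2 := CH_chain b1'.nonneg (fun x : (Ω' × W) × W => (Y x.1.2, B x.2)) t
        (fun x => w 0 x.1.1)
      have c3 : n * (lY + lB) ≤ CH Q₂ t (fun x => w 0 x.1.1) := by
        have d1 : Push Q₂ Q (fun x => x.1.1) := a2.comp b2'
        have d2 := d1.CH (fun ω (i : Fin n) => (Y (v i ω), B (w (i + 1) ω))) (w 0)
        rw [ht, d2]
        exact h5
      have c4 : lY + lB ≤ CH Q₂ (fun x => (Y x.1.2, B x.2)) (fun x => (t x, w 0 x.1.1)) := by
        have d0 := Pool.MIC.CH_swl b1'.nonneg (fun x : (Ω' × W) × W => Y x.1.2) (fun x => B x.2)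
          (fun x => (t x, w 0 x.1.1))
        have d1 := CH_chain b1'.nonneg (fun x : (Ω' × W) × W => B x.2) (fun x => Y x.1.2)
          (fun x => (t x, w 0 x.1.1))
        have d2 : lY ≤ CH Q₂ (fun x => Y x.1.2) (fun x => (t x, w 0 x.1.1)) := by
          have f1 : CH Q₂ (fun x => Y x.1.2) (fun x => x.1.1) = CH Q₁ (fun x => Y x.2)
              (fun x => x.1) := b2'.CH (fun x => Y x.2) (fun x => x.1)
          have f2 : CH Q₂ (fun x => Y x.1.2) (fun x => x.1.1) ≤
              CH Q₂ (fun x => Y x.1.2) (fun x => (t x, w 0 x.1.1)) := by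
            refine CH_mono_cond b1'.nonneg ?_
            intro x x' _ _ h
            rw [ht]
            simp only at h
            simp only [h]
          have f3 := hY n
          linarith
        have d3 : lB ≤ CH Q₂ (fun x => B x.2) (fun x => (Y x.1.2, (t x, w 0 x.1.1))) := by
          have f2 : CH Q₂ (fun x => B x.2) (fun x => x.1) ≤
              CH Q₂ (fun x => B x.2) (fun x => (Y x.1.2, (t x, w 0 x.1.1))) := by
            refine CH_mono_cond b1'.nonneg ?_
            intro x x' _ _ h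
            rw [ht]
            simp only at h
            simp only [h]
          linarith
        rw [d0, d1]
        linarith
      push_cast
      linarith

end Pool.FRT
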